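import Mathlib

/-!
# Clopen versus regular closed sets in closure spaces of semilattice type (MP_df2171_co)

A countable closure space of semilattice type whose poset of clopen sets is a lattice, although
there is a regular closed set which is not clopen.
-/

namespace Pool.Agent.Results.MP_df2171_co.LatticeNotRegular

/-! ### General definitions -/

/-- `(P, φ)` is a closure space with `φ(∅) = ∅`. -/
structure IsClosureSpace {P : Type} (φ : Set P → Set P) : Prop where
  ext : ∀ a, a ⊆ φ a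
  mono : ∀ a b, a ⊆ b → φ a ⊆ φ b
  idem : ∀ a, φ (φ a) = φ a
  empty : φ ∅ = ∅

/-- `a` is closed. -/
def Closed {P : Type} (φ : Set P → Set P) (a : Set P) : Prop := φ a = a

/-- `a` is open: its complement is closed. -/
def Opn {P : Type} (φ : Set P → Set P) (a : Set P) : Prop := Closed φ aᶜ

/-- The interior of `a`. -/
def inter {P : Type} (φ : Set P → Set P) (a : Set P) : Set P := (φ aᶜ)ᶜ

/-- The set of clopen sets. -/
def Clop {P : Type} (φ : Set P → Set P) : Set (Set P) := {a | Closed φ a ∧ Opn φ a}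

/-- The set of regular closed sets. -/
def Reg {P : Type} (φ : Set P → Set P) : Set (Set P) := {a | a = φ (inter φ a)}

/-- `(P, φ)` is algebraic. -/
def Algebraic {P : Type} (φ : Set P → Set P) : Prop :=
  ∀ x p, p ∈ φ x ↔ ∃ y : Set P, y ⊆ x ∧ y.Finite ∧ p ∈ φ y

/-- `x` is a minimal covering of `p`. -/
def MinCov {P : Type} (φ : Set P → Set P) (x : Set P) (p : P) : Prop :=
  p ∈ φ x ∧ ∀ y, y ⊆ x → p ∈ φ y → y = x

/-- `(P, φ)` has semilattice type: it is algebraic and for some partial order on `P` every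
minimal covering of every point `p` has join `p`. -/
def SemilatticeType {P : Type} (φ : Set P → Set P) : Prop :=
  Algebraic φ ∧ ∃ _ : PartialOrder P, ∀ x p, MinCov φ x p → IsLUB x p

/-- The family `S` of sets, ordered by inclusion, is a lattice. -/
def IsLatticeFamily {P : Type} (S : Set (Set P)) : Prop :=
  ∀ a ∈ S, ∀ b ∈ S,
    (∃ c ∈ S, a ⊆ c ∧ b ⊆ c ∧ ∀ d ∈ S, a ⊆ d → b ⊆ d → c ⊆ d) ∧
    (∃ c ∈ S, c ⊆ a ∧ c ⊆ b ∧ ∀ d ∈ S, d ⊆ a → d ⊆ b → d ⊆ c)

/-! ### The example -/

/-- The points of the example. -/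
inductive Pt : Type
  | p (n : ℕ) | a (n : ℕ) | b (n : ℕ) | c (n : ℕ) | d (n : ℕ)

open Pt

/-- The rules `q = r ∨ s`. -/
inductive Rule : Pt → Pt → Pt → Prop
  | p1 (n : ℕ) : Rule (p n) (a n) (b n)
  | p2 (n : ℕ) : Rule (p n) (c n) (d n)
  | a1 (n : ℕ) : Rule (a n) (a (n + 1)) (c n)
  | a2 (n : ℕ) : Rule (a n) (b (n + 1)) (c n)
  | d1 (n : ℕ) : Rule (d n) (c (n + 1)) (b n)
  | d2 (n : ℕ) : Rule (d n) (d (n + 1)) (b n)

/-- The closure generated by the rules. -/
inductive Cl (x : Set Pt) : Pt → Prop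
  | base {q : Pt} (h : q ∈ x) : Cl x q
  | step {q r s : Pt} (h : Rule q r s) (hr : Cl x r) (hs : Cl x s) : Cl x q

/-- The closure operator of the example. -/
def ph (x : Set Pt) : Set Pt := {q | Cl x q}

/-- `x` is closed under the rules. -/
def RC (x : Set Pt) : Prop := ∀ q r s, Rule q r s → r ∈ x → s ∈ x → q ∈ x

theorem ph_subset {x y : Set Pt} (h : x ⊆ y) (hy : RC y) : ph x ⊆ y := by
  intro q hq
  induction hq with
  | base h' => exact h h'
  | step h' _ _ ih1 ih2 => exact hy _ _ _ h' ih1 ih2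

theorem rc_ph (x : Set Pt) : RC (ph x) := fun _ _ _ h hr hs => Cl.step h hr hs

theorem subset_ph (x : Set Pt) : x ⊆ ph x := fun _ h => Cl.base h

theorem closed_iff {x : Set Pt} : Closed ph x ↔ RC x := by
  constructor
  · intro h
    rw [← show ph x = x from h]
    exact rc_ph x
  · intro h
    exact Set.Subset.antisymm (ph_subset (Set.Subset.refl x) h) (subset_ph x)

theorem opn_iff {x : Set Pt} : Opn ph x ↔ ∀ q r s, Rule q r s → q ∈ x → r ∈ x ∨ s ∈ x := by
  unfold Opn
  rw [closed_iff]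
  constructor
  · intro h q r s hR hq
    by_contra hcon
    push Not at hcon
    exact h q r s hR hcon.1 hcon.2 hq
  · intro h q r s hR hr hs hq
    rcases h q r s hR hq with h1 | h1
    · exact hr h1
    · exact hs h1

theorem isClosureSpace : IsClosureSpace ph where
  ext := subset_ph
  mono := fun a b h => ph_subset (h.trans (subset_ph b)) (rc_ph b)
  idem := fun a => Set.Subset.antisymm (ph_subset (Set.Subset.refl _) (rc_ph a)) (subset_ph _)
  empty := by
    apply Set.eq_empty_of_subset_empty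
    apply ph_subset (Set.Subset.refl _)
    intro _ _ _ _ hr
    exact absurd hr (Set.notMem_empty _)

/-- The level of a point. -/
def lev : Pt → ℕ
  | p n => n | a n => n | b n => n | c n => n | d n => n

/-- The order. -/
def ple (x : Pt) : Pt → Prop
  | p m => m ≤ lev x
  | a m => x = a m ∨ x = c m ∨ m + 1 ≤ lev x
  | d m => x = d m ∨ x = b m ∨ m + 1 ≤ lev x
  | b m => x = b m
  | c m => x = c m

/-- The partial order. -/
abbrev order : PartialOrder Pt where
  le := ple
  le_refl := by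
    intro x
    cases x <;> simp [ple, lev]
  le_trans := by
    intro x y z hxy hyz
    cases x <;> cases y <;> cases z <;> simp [ple, lev] at hxy hyz ⊢ <;> omega
  le_antisymm := by
    intro x y hxy hyx
    cases x <;> cases y <;> simp [ple, lev] at hxy hyx ⊢ <;> omega

theorem rule_lub {q r s : Pt} (h : Rule q r s) :
    ple r q ∧ ple s q ∧ ∀ u, ple r u → ple s u → ple q u := by
  cases h <;> refine ⟨by simp [ple, lev], by simp [ple, lev], ?_⟩ <;> intro u h1 h2 <;>
    cases u <;> simp [ple, lev] at h1 h2 ⊢ <;> omega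

/-- Every element of the closure of `x` is the join of a finite subset generating it. -/
theorem ph_lub {x : Set Pt} {q : Pt} (hq : q ∈ ph x) :
    ∃ y : Set Pt, y ⊆ x ∧ y.Finite ∧ q ∈ ph y ∧
      (∀ r ∈ y, ple r q) ∧ ∀ u, (∀ r ∈ y, ple r u) → ple q u := by
  induction hq with
  | @base q h =>
    refine ⟨{q}, by simpa using h, Set.finite_singleton q, subset_ph _ rfl, ?_, ?_⟩
    · intro r hr
      rw [Set.mem_singleton_iff.1 hr]
      exact order.le_refl q
    · intro u hu
      exact hu q rfl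
  | @step q r s h _ _ ih1 ih2 =>
    obtain ⟨y1, h11, h12, h13, h14, h15⟩ := ih1
    obtain ⟨y2, h21, h22, h23, h24, h25⟩ := ih2
    obtain ⟨hl1, hl2, hl3⟩ := rule_lub h
    refine ⟨y1 ∪ y2, Set.union_subset h11 h21, h12.union h22, ?_, ?_, ?_⟩
    · exact rc_ph _ _ _ _ h (isClosureSpace.mono _ _ Set.subset_union_left h13)
        (isClosureSpace.mono _ _ Set.subset_union_right h23)
    · intro t ht
      rcases ht with ht | ht
      · exact order.le_trans _ _ _ (h14 t ht) hl1
      · exact order.le_trans _ _ _ (h24 t ht) hl2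
    · intro u hu
      exact hl3 u (h15 u fun t ht => hu t (Or.inl ht)) (h25 u fun t ht => hu t (Or.inr ht))

theorem semilatticeType : SemilatticeType ph := by
  refine ⟨?_, order, ?_⟩
  · intro x q
    constructor
    · intro hq
      obtain ⟨y, h1, h2, h3, _⟩ := ph_lub hq
      exact ⟨y, h1, h2, h3⟩
    · rintro ⟨y, h1, _, h3⟩
      exact isClosureSpace.mono _ _ h1 h3
  · intro x q hx
    obtain ⟨y, h1, _, h3, h4, h5⟩ := ph_lub hx.1
    have hyx : y = x := hx.2 y h1 h3
    subst hyx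
    exact ⟨fun r hr => h4 r hr, fun u hu => h5 u fun r hr => hu hr⟩

/-- The closure of the union of two clopen sets is open. -/
theorem join_open {x y : Set Pt} (hx : x ∈ Clop ph) (hy : y ∈ Clop ph) : Opn ph (ph (x ∪ y)) := by
  obtain ⟨hxc, hxo⟩ := hx
  obtain ⟨hyc, hyo⟩ := hy
  rw [closed_iff] at hxc hyc
  rw [opn_iff] at hxo hyo ⊢
  -- properties of a clopen set
  have key1 : ∀ w : Set Pt, RC w → (∀ q r s, Rule q r s → q ∈ w → r ∈ w ∨ s ∈ w) →
      ∀ n, a n ∈ w → c n ∉ w → c (n + 1) ∈ w ∨ d (n + 1) ∈ w := by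
    intro w hc ho n ha hcn
    have h1 : a (n + 1) ∈ w := (ho _ _ _ (Rule.a1 n) ha).resolve_right hcn
    have h2 : b (n + 1) ∈ w := (ho _ _ _ (Rule.a2 n) ha).resolve_right hcn
    exact ho _ _ _ (Rule.p2 (n + 1)) (hc _ _ _ (Rule.p1 (n + 1)) h1 h2)
  have key2 : ∀ w : Set Pt, RC w → (∀ q r s, Rule q r s → q ∈ w → r ∈ w ∨ s ∈ w) →
      ∀ n, d n ∈ w → b n ∉ w → a (n + 1) ∈ w ∨ b (n + 1) ∈ w := by
    intro w hc ho n hd hbn
    have h1 : c (n + 1) ∈ w := (ho _ _ _ (Rule.d1 n) hd).resolve_right hbn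
    have h2 : d (n + 1) ∈ w := (ho _ _ _ (Rule.d2 n) hd).resolve_right hbn
    exact ho _ _ _ (Rule.p1 (n + 1)) (hc _ _ _ (Rule.p2 (n + 1)) h1 h2)
  have hsub : x ∪ y ⊆ ph (x ∪ y) := subset_ph _
  have hK := rc_ph (x ∪ y)
  set K := ph (x ∪ y) with hKdef
  have hin : ∀ q ∈ K, q ∈ x ∪ y ∨ ∃ r s, Rule q r s ∧ r ∈ K ∧ s ∈ K := by
    intro q hq
    cases hq with
    | base h => exact Or.inl h
    | step h hr hs => exact Or.inr ⟨_, _, h, hr, hs⟩
  have hunion : ∀ q r s, Rule q r s → q ∈ x ∪ y → r ∈ K ∨ s ∈ K := by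
    intro q r s hR hq
    rcases hq with hq | hq
    · rcases hxo q r s hR hq with h | h
      · exact Or.inl (hsub (Or.inl h))
      · exact Or.inr (hsub (Or.inl h))
    · rcases hyo q r s hR hq with h | h
      · exact Or.inl (hsub (Or.inr h))
      · exact Or.inr (hsub (Or.inr h))
  -- a_n in K, c_n not in K
  have hA : ∀ n, a n ∈ K → c n ∉ K → c (n + 1) ∈ K ∨ d (n + 1) ∈ K := by
    intro n ha hcn
    rcases hin _ ha with h | ⟨r, s, hR, hr, hs⟩
    · rcases h with h | h
      · rcases key1 x hxc hxo n h (fun h' => hcn (hsub (Or.inl h'))) with h' | h'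
        · exact Or.inl (hsub (Or.inl h'))
        · exact Or.inr (hsub (Or.inl h'))
      · rcases key1 y hyc hyo n h (fun h' => hcn (hsub (Or.inr h'))) with h' | h'
        · exact Or.inl (hsub (Or.inr h'))
        · exact Or.inr (hsub (Or.inr h'))
    · cases hR <;> exact absurd hs hcn
  have hD : ∀ n, d n ∈ K → b n ∉ K → a (n + 1) ∈ K ∨ b (n + 1) ∈ K := by
    intro n hd hbn
    rcases hin _ hd with h | ⟨r, s, hR, hr, hs⟩
    · rcases h with h | h
      · rcases key2 x hxc hxo n h (fun h' => hbn (hsub (Or.inl h'))) with h' | h'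
        · exact Or.inl (hsub (Or.inl h'))
        · exact Or.inr (hsub (Or.inl h'))
      · rcases key2 y hyc hyo n h (fun h' => hbn (hsub (Or.inr h'))) with h' | h'
        · exact Or.inl (hsub (Or.inr h'))
        · exact Or.inr (hsub (Or.inr h'))
    · cases hR <;> exact absurd hs hbn
  intro q r s hR hq
  rcases hin q hq with h | ⟨r', s', hR', hr', hs'⟩
  · exact hunion q r s hR h
  · cases hR with
    | p1 n =>
      cases hR' with
      | p1 => exact Or.inl hr'
      | p2 =>
        by_contra hcon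
        push Not at hcon
        obtain ⟨h1, h2⟩ := hcon
        rcases hD n hs' h2 with h | h
        · exact h1 (hK _ _ _ (Rule.a1 n) h hr')
        · exact h1 (hK _ _ _ (Rule.a2 n) h hr')
    | p2 n =>
      cases hR' with
      | p1 =>
        by_contra hcon
        push Not at hcon
        obtain ⟨h1, h2⟩ := hcon
        rcases hA n hr' h1 with h | h
        · exact h2 (hK _ _ _ (Rule.d1 n) h hs')
        · exact h2 (hK _ _ _ (Rule.d2 n) h hs')
      | p2 => exact Or.inl hr'
    | a1 n => cases hR' <;> exact Or.inr hs'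
    | a2 n => cases hR' <;> exact Or.inr hs'
    | d1 n => cases hR' <;> exact Or.inr hs'
    | d2 n => cases hR' <;> exact Or.inr hs'

theorem compl_clop {x : Set Pt} (hx : x ∈ Clop ph) : xᶜ ∈ Clop ph := by
  refine ⟨hx.2, ?_⟩
  show Closed ph xᶜᶜ
  rw [compl_compl]
  exact hx.1

theorem join_clop {x y : Set Pt} (hx : x ∈ Clop ph) (hy : y ∈ Clop ph) :
    ph (x ∪ y) ∈ Clop ph :=
  ⟨isClosureSpace.idem _, join_open hx hy⟩

theorem lattice : IsLatticeFamily (Clop ph) := by
  have hjoin : ∀ x ∈ Clop ph, ∀ y ∈ Clop ph,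
      ∃ z ∈ Clop ph, x ⊆ z ∧ y ⊆ z ∧ ∀ w ∈ Clop ph, x ⊆ w → y ⊆ w → z ⊆ w := by
    intro x hx y hy
    refine ⟨ph (x ∪ y), join_clop hx hy, ?_, ?_, ?_⟩
    · exact Set.subset_union_left.trans (subset_ph _)
    · exact Set.subset_union_right.trans (subset_ph _)
    · intro w hw h1 h2
      exact ph_subset (Set.union_subset h1 h2) (closed_iff.1 hw.1)
  intro x hx y hy
  refine ⟨hjoin x hx y hy, ?_⟩
  obtain ⟨z, hz, h1, h2, h3⟩ := hjoin xᶜ (compl_clop hx) yᶜ (compl_clop hy)
  refine ⟨zᶜ, compl_clop hz, ?_, ?_, ?_⟩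
  · exact Set.compl_subset_comm.1 h1
  · exact Set.compl_subset_comm.1 h2
  · intro w hw hw1 hw2
    have := h3 wᶜ (compl_clop hw) (Set.compl_subset_compl.2 hw1) (Set.compl_subset_compl.2 hw2)
    exact Set.subset_compl_comm.1 this

/-- The red set. -/
def red : Set Pt := {q | ∃ n, q = a n ∨ q = b n}

/-- The closure of the red set. -/
def cred : Set Pt := {q | ∃ n, q = a n ∨ q = b n ∨ q = p n}

theorem ph_red : ph red = cred := by
  apply Set.Subset.antisymm
  · apply ph_subset
    · rintro q ⟨n, h | h⟩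
      · exact ⟨n, Or.inl h⟩
      · exact ⟨n, Or.inr (Or.inl h)⟩
    · intro q r s hR hr hs
      obtain ⟨i, hi⟩ := hr
      obtain ⟨j, hj⟩ := hs
      cases hR with
      | p1 n => exact ⟨n, Or.inr (Or.inr rfl)⟩
      | p2 n => simp at hi
      | a1 n => simp at hj
      | a2 n => simp at hj
      | d1 n => simp at hi
      | d2 n => simp at hi
  · rintro q ⟨n, rfl | rfl | rfl⟩
    · exact Cl.base ⟨n, Or.inl rfl⟩
    · exact Cl.base ⟨n, Or.inr rfl⟩
    · exact Cl.step (Rule.p1 n) (Cl.base ⟨n, Or.inl rfl⟩) (Cl.base ⟨n, Or.inr rfl⟩)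

theorem ph_cred_compl : ph credᶜ = redᶜ := by
  apply Set.Subset.antisymm
  · apply ph_subset
    · intro q hq hred
      apply hq
      obtain ⟨n, h | h⟩ := hred
      · exact ⟨n, Or.inl h⟩
      · exact ⟨n, Or.inr (Or.inl h)⟩
    · intro q r s hR hr hs hq
      obtain ⟨i, hi⟩ := hq
      cases hR with
      | p1 n => simp at hi
      | p2 n => simp at hi
      | a1 n => exact hr ⟨n + 1, Or.inl rfl⟩
      | a2 n => exact hr ⟨n + 1, Or.inr rfl⟩
      | d1 n => simp at hi
      | d2 n => simp at hi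
  · intro q hq
    cases q with
    | p n =>
      apply Cl.step (Rule.p2 n)
      · exact Cl.base (by rintro ⟨i, hi⟩; simp at hi)
      · exact Cl.base (by rintro ⟨i, hi⟩; simp at hi)
    | a n => exact absurd ⟨n, Or.inl rfl⟩ hq
    | b n => exact absurd ⟨n, Or.inr rfl⟩ hq
    | c n => exact Cl.base (by rintro ⟨i, hi⟩; simp at hi)
    | d n => exact Cl.base (by rintro ⟨i, hi⟩; simp at hi)

theorem cred_reg : cred ∈ Reg ph := by
  show cred = ph (inter ph cred)
  unfold inter
  rw [ph_cred_compl, compl_compl, ph_red]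

theorem cred_not_clop : cred ∉ Clop ph := by
  rintro ⟨_, ho⟩
  rw [opn_iff] at ho
  rcases ho _ _ _ (Rule.p2 0) ⟨0, Or.inr (Or.inr rfl)⟩ with ⟨i, hi⟩ | ⟨i, hi⟩
  · simp at hi
  · simp at hi

/-- There is a closure space `(P, φ)` of semilattice type for which `Clop(P, φ)` is a lattice
but `Clop(P, φ) ≠ Reg(P, φ)`. -/
theorem result :
    ∃ (P : Type) (φ : Set P → Set P), IsClosureSpace φ ∧ SemilatticeType φ ∧
      IsLatticeFamily (Clop φ) ∧ Clop φ ≠ Reg φ := by
  refine ⟨Pt, ph, isClosureSpace, semilatticeType, lattice, ?_⟩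
  intro h
  exact cred_not_clop (h ▸ cred_reg)

end Pool.Agent.Results.MP_df2171_co.LatticeNotRegular
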